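import Pool.Agent.helper70.FI.SpecQ1

/-!
# Project fi (MP_baa4d7_al), row QMY
-/

set_option autoImplicit false

namespace Pool.Agent.FI

open Pool.Agent.helper58.DC Pool.Agent.DI Pool.Agent.GR Pool.Agent.OB

open Classical in
/-- the exchange of sums -/
theorem QMY_sum {α β : Type} (T : Finset α) (Q : Finset β) (a : α → ℂ) (S : β → α → Prop) (R : α → α → Prop)
    (N d : ℂ) (hd : d ≠ 0) (hN : ∀ η ∈ T, N = ∑ q ∈ Q, if S q η then (1 : ℂ) else 0) (E : α → α → ℂ)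
    (hE : ∀ η ∈ T, ∀ η' ∈ T, E η η' = if R η η' then 1 / d else 0)
    (hRS : ∀ q ∈ Q, ∀ η ∈ T, S q η → ∀ η' ∈ T, (R η η' ↔ S q η')) :
    d * N * ∑ η ∈ T, ∑ η' ∈ T, a η * (starRingEnd ℂ) (a η') * E η η' =
      ∑ q ∈ Q, (∑ η ∈ T, if S q η then a η else 0) * (starRingEnd ℂ) (∑ η ∈ T, if S q η then a η else 0) := by
  have h1 : ∀ η ∈ T, ∀ η' ∈ T, d * N * (a η * (starRingEnd ℂ) (a η') * E η η') =
      ∑ q ∈ Q, if S q η then (if S q η' then a η * (starRingEnd ℂ) (a η') else 0) else 0 := by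
    intro η hη η' hη'
    rw [hE η hη η' hη']
    by_cases hR : R η η'
    · have e1 : ∀ q ∈ Q, (if S q η then (if S q η' then a η * (starRingEnd ℂ) (a η') else 0) else 0) =
          (if S q η then (1 : ℂ) else 0) * (a η * (starRingEnd ℂ) (a η')) := by
        intro q hq
        by_cases hs : S q η
        · rw [if_pos hs, if_pos hs, if_pos ((hRS q hq η hη hs η' hη').1 hR), one_mul]
        · rw [if_neg hs, if_neg hs, zero_mul]
      rw [Finset.sum_congr rfl e1, ← Finset.sum_mul, ← hN η hη, if_pos hR]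
      field_simp
    · have e1 : ∀ q ∈ Q, (if S q η then (if S q η' then a η * (starRingEnd ℂ) (a η') else 0) else 0) = 0 := by
        intro q hq
        by_cases hs : S q η
        · rw [if_pos hs, if_neg fun h => hR ((hRS q hq η hη hs η' hη').2 h)]
        · rw [if_neg hs]
      rw [Finset.sum_congr rfl e1, if_neg hR]
      simp
  rw [Finset.mul_sum]
  have h2 : ∀ η ∈ T, d * N * ∑ η' ∈ T, a η * (starRingEnd ℂ) (a η') * E η η' =
      ∑ q ∈ Q, ∑ η' ∈ T, if S q η then (if S q η' then a η * (starRingEnd ℂ) (a η') else 0) else 0 := by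
    intro η hη
    rw [Finset.mul_sum, Finset.sum_congr rfl (h1 η hη), Finset.sum_comm]
  rw [Finset.sum_congr rfl h2, Finset.sum_comm]
  refine Finset.sum_congr rfl fun q _ => ?_
  rw [map_sum, Finset.sum_mul_sum]
  refine Finset.sum_congr rfl fun η _ => Finset.sum_congr rfl fun η' _ => ?_
  by_cases h3 : S q η <;> by_cases h4 : S q η' <;> simp [h3, h4]

theorem QMY (hQMS : QMS_stmt) (hQWT : QWT_stmt) (hQMG : QMG_stmt) (hQDC : QDC_stmt) (hFEQ : FEQ_stmt)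
    (hB2 : B2_stmt) : QMY_stmt := by
  classical
  intro p M hS G _ _ D x θ χ lo P hP y hy hyp hy1 hgood χ' hχ'
  have hDL : D ≤ cz P := Q1_D_le lo.rt hP
  have hKL : Cz (cz P) y ≤ cz P := inf_le_left
  have hth : ∀ g, g ∉ cz D → θ g = 0 := ((hB2 G (cz D)).2 θ lo.rt.th).2.2.2.1
  have hTfin : (BlC M (cz P) θ y).Finite := ((hB2 G (Cz (cz P) y)).1).subset fun _ h => h.1
  have hQfin : {q : G × G | q.1 ∈ cz P ∧ q.2 ∈ D ∧ q.1 * q.2 * q.1⁻¹ = y}.Finite := Set.toFinite _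
  -- `cjF l θ` vanishes outside `K`
  have hvan : ∀ q : G × G, q.1 ∈ cz P → q.2 ∈ D → q.1 * q.2 * q.1⁻¹ = y → ∀ g, g ∉ Cz (cz P) y → cjF q.1 θ g = 0 := by
    intro q hq1 hq2 hq3 g hg
    rw [cjF_apply]
    refine hth _ fun hmem => hg ?_
    refine Subgroup.mem_inf.2 ⟨?_, ?_⟩
    · have h1 := (cz P).mul_mem ((cz P).mul_mem hq1 (Q1_C_le hP hmem)) ((cz P).inv_mem hq1)
      have h2 : q.1 * (q.1⁻¹ * g * q.1) * q.1⁻¹ = g := by group
      rwa [h2] at h1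
    · rw [Subgroup.mem_centralizer_iff]
      intro z hz
      rw [Set.mem_singleton_iff] at hz
      rw [hz, ← hq3]
      have h1 := (Subgroup.mem_centralizer_iff.1 hmem) q.2 hq2
      calc q.1 * q.2 * q.1⁻¹ * g = q.1 * (q.2 * (q.1⁻¹ * g * q.1)) * q.1⁻¹ := by group
        _ = q.1 * ((q.1⁻¹ * g * q.1) * q.2) * q.1⁻¹ := by rw [h1]
        _ = g * (q.1 * q.2 * q.1⁻¹) := by group
  -- `SB M L (cjF l θ) θ`
  have hSBL : ∀ l ∈ cz P, SB M (cz P) (cjF l θ) θ := by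
    intro l hl z hz hi
    rw [cc_funMap]
    have h1 : (fun x => z (l * x * l⁻¹)) = z := funext fun x => hz.1 l hl x
    rw [h1]
    exact ⟨0, M.zero_mem, by simp⟩
  have hsub : ∀ q : G × G, q.1 ∈ cz P → q.2 ∈ D → q.1 * q.2 * q.1⁻¹ = y → ∀ η ∈ IrrOn (Cz (cz P) y),
      SB M (Cz (cz P) y) (cjF q.1 θ) η → SB M (cz P) η θ := by
    intro q hq1 hq2 hq3 η hη hs
    have h1 : SB M (cz P) η (cjF q.1 θ) := Q1_mono hKL ((hB2 G (Cz (cz P) y)).2 η hη).2.2.2.1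
      (hvan q hq1 hq2 hq3) hs.symm
    exact h1.trans (hSBL q.1 hq1)
  -- the number of pairs
  have hiL : (iL M D (cz P) θ : ℂ) ≠ 0 := by
    rw [Nat.cast_ne_zero]
    unfold iL Subgroup.relIndex
    exact Subgroup.index_ne_zero_of_finite
  have hKc : (Nat.card (Cz (cz P) y) : ℂ) ≠ 0 := Nat.cast_ne_zero.2 Nat.card_pos.ne'
  have hDc : (Nat.card D : ℂ) ≠ 0 := Nat.cast_ne_zero.2 Nat.card_pos.ne'
  have hcount : ∀ η ∈ BlC M (cz P) θ y, ((iL M D (cz P) θ : ℂ) * (Nat.card (Cz (cz P) y) : ℂ)) =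
      ∑ q ∈ hQfin.toFinset, if SB M (Cz (cz P) y) (cjF q.1 θ) η then (1 : ℂ) else 0 := by
    intro η hη
    have h1 := hQWT p M hS G D x θ χ lo P hP y hy hyp hy1 η hη.1 hη.2
    rw [Finset.sum_boole, ← Nat.cast_mul, ← h1, Nat.cast_inj]
    have h2 : ({q : G × G | q.1 ∈ cz P ∧ q.2 ∈ D ∧ q.1 * q.2 * q.1⁻¹ = y ∧
        SB M (Cz (cz P) y) (cjF q.1 θ) η}) =
        ((hQfin.toFinset.filter fun q => SB M (Cz (cz P) y) (cjF q.1 θ) η : Finset (G × G)) : Set (G × G)) := by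
      ext q
      simp only [Set.mem_ofPred_eq, Finset.coe_filter, Set.Finite.mem_toFinset, and_assoc]
    have h3 : Nat.card {q : G × G // q.1 ∈ cz P ∧ q.2 ∈ D ∧ q.1 * q.2 * q.1⁻¹ = y ∧
        SB M (Cz (cz P) y) (cjF q.1 θ) η} = Nat.card ({q : G × G | q.1 ∈ cz P ∧ q.2 ∈ D ∧ q.1 * q.2 * q.1⁻¹ = y ∧
        SB M (Cz (cz P) y) (cjF q.1 θ) η} : Set (G × G)) := rfl
    rw [h3, h2, Nat.card_coe_set_eq, Set.ncard_coe_finset]
  -- the matrix `EE`
  have hEE : ∀ η ∈ BlC M (cz P) θ y, ∀ η' ∈ BlC M (cz P) θ y, EE p (Cz (cz P) y) η η' =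
      if SB M (Cz (cz P) y) η η' then 1 / (Nat.card D : ℂ) else 0 := by
    intro η hη η' hη'
    have h1 := hcount η hη
    have h2 : ∃ q ∈ hQfin.toFinset, SB M (Cz (cz P) y) (cjF q.1 θ) η := by
      by_contra hcon
      push Not at hcon
      rw [Finset.sum_congr rfl (fun q hq => if_neg (hcon q hq)), Finset.sum_const_zero] at h1
      exact mul_ne_zero hiL hKc h1
    obtain ⟨q, hq, hs⟩ := h2
    obtain ⟨hq1, hq2, hq3⟩ := hQfin.mem_toFinset.1 hq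
    have h3 := hQMG p M hS G D (cz P) θ q.1 hq1 q.2 (hDL hq2) (hgood q.1 hq1 q.2 hq2 hq3)
    rw [hq3] at h3
    have h4 := h3 η hη.1 hs η' hη'.1
    exact h4
  -- the sums `dd`
  have hdd : ∀ q ∈ hQfin.toFinset, dd M (Cz (cz P) q.2) θ χ' q.2 =
      ∑ η ∈ hTfin.toFinset, if SB M (Cz (cz P) y) (cjF q.1 θ) η then
        mt (Cz (cz P) y) χ' η * (η y / η 1) else 0 := by
    intro q hq
    obtain ⟨hq1, hq2, hq3⟩ := hQfin.mem_toFinset.1 hq
    have h1 := hQDC G M (cz P) θ q.1 hq1 q.2 χ' hχ'.1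
    rw [hq3] at h1
    rw [← h1]
    unfold dd
    have hBfin : (Bl M (Cz (cz P) y) (cjF q.1 θ)).Finite := ((hB2 G (Cz (cz P) y)).1).subset fun _ h => h.1
    rw [finsum_mem_eq_finite_toFinset_sum _ hBfin, ← Finset.sum_filter]
    refine Finset.sum_congr ?_ fun _ _ => rfl
    ext η
    rw [Set.Finite.mem_toFinset, Finset.mem_filter, Set.Finite.mem_toFinset]
    constructor
    · rintro ⟨h2, h3⟩
      exact ⟨⟨h2, hsub q hq1 hq2 hq3 η h2 h3.symm⟩, h3.symm⟩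
    · rintro ⟨⟨h2, -⟩, h3⟩
      exact ⟨h2, h3.symm⟩
  have key := QMY_sum hTfin.toFinset hQfin.toFinset (fun η => mt (Cz (cz P) y) χ' η * (η y / η 1))
    (fun q η => SB M (Cz (cz P) y) (cjF q.1 θ) η) (fun η η' => SB M (Cz (cz P) y) η η')
    ((iL M D (cz P) θ : ℂ) * (Nat.card (Cz (cz P) y) : ℂ)) (Nat.card D : ℂ) hDc
    (fun η hη => hcount η (hTfin.mem_toFinset.1 hη)) (EE p (Cz (cz P) y))
    (fun η hη η' hη' => hEE η (hTfin.mem_toFinset.1 hη) η' (hTfin.mem_toFinset.1 hη'))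
    (fun q _ η _ hs η' _ => ⟨fun h => SB.trans hs h, fun h => SB.trans hs.symm h⟩)
  rw [hQMS p M hS G (cz P) y hy hyp θ χ' hχ', finsum_mem_eq_finite_toFinset_sum _ hTfin,
    finsum_mem_eq_finite_toFinset_sum _ hQfin]
  have h6 : ∀ q ∈ hQfin.toFinset, dd M (Cz (cz P) q.2) θ χ' q.2 *
      (starRingEnd ℂ) (dd M (Cz (cz P) q.2) θ χ' q.2) =
      (∑ η ∈ hTfin.toFinset, if SB M (Cz (cz P) y) (cjF q.1 θ) η then mt (Cz (cz P) y) χ' η * (η y / η 1) else 0) *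
      (starRingEnd ℂ) (∑ η ∈ hTfin.toFinset, if SB M (Cz (cz P) y) (cjF q.1 θ) η then
        mt (Cz (cz P) y) χ' η * (η y / η 1) else 0) := fun q hq => by rw [hdd q hq]
  rw [Finset.sum_congr rfl h6, ← key]
  have h5 : ∀ η ∈ hTfin.toFinset, (∑ᶠ η' ∈ BlC M (cz P) θ y,
      (mt (Cz (cz P) y) χ' η * (η y / η 1)) * (starRingEnd ℂ) (mt (Cz (cz P) y) χ' η' * (η' y / η' 1)) *
        EE p (Cz (cz P) y) η η') = ∑ η' ∈ hTfin.toFinset,
      (mt (Cz (cz P) y) χ' η * (η y / η 1)) * (starRingEnd ℂ) (mt (Cz (cz P) y) χ' η' * (η' y / η' 1)) *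
        EE p (Cz (cz P) y) η η' := fun η _ => finsum_mem_eq_finite_toFinset_sum _ hTfin
  rw [Finset.sum_congr rfl h5]
  ring

end Pool.Agent.FI
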